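import Mathlib
import Pool.Agent.H6.GPCover

namespace Pool.Agent.Results.MP_af7016_co.Half

open Filter Topology Pool.Agent.H6.GPCover

theorem result (R : Set ℚ) (hR : ∀ r ∈ R, 1 < r) (h2 : (2 : ℚ) ∈ R) :
    Tendsto (fun k : ℕ => gammaLow R k) atTop (𝓝 (1 / 2)) ∧
      Tendsto (fun k : ℕ => gammaUp R k) atTop (𝓝 (1 / 2)) :=
  main hR h2

end Pool.Agent.Results.MP_af7016_co.Half
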